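import Mathlib

set_option autoImplicit false

namespace Pool.Agent.Results.MP_2b0b8a_al.Disproof

/-- index set of the generators `s_{p,q}`, `1 ≤ p < q ≤ n` -/
def Gen (n : ℕ) : Type := {x : ℕ × ℕ // 1 ≤ x.1 ∧ x.1 < x.2 ∧ x.2 ≤ n}

/-- the defining relators of the cactus group -/
def rels (n : ℕ) : Set (FreeGroup (Gen n)) :=
  {w | (∃ a : Gen n, w = FreeGroup.of a * FreeGroup.of a) ∨
    (∃ a b : Gen n, (a.1.2 < b.1.1 ∨ b.1.2 < a.1.1) ∧
      w = FreeGroup.of a * FreeGroup.of b * (FreeGroup.of b * FreeGroup.of a)⁻¹) ∨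
    (∃ a b c : Gen n, a.1.1 ≤ b.1.1 ∧ b.1.2 ≤ a.1.2 ∧
      c.1.1 + b.1.2 = a.1.1 + a.1.2 ∧ c.1.2 + b.1.1 = a.1.1 + a.1.2 ∧
      w = FreeGroup.of a * FreeGroup.of b * (FreeGroup.of c * FreeGroup.of a)⁻¹)}

/-- the cactus group `J_n` -/
abbrev J (n : ℕ) : Type := PresentedGroup (rels n)

/-- coordinate reversal of `A^r` -/
def rev (A : Type) [Group A] (r : ℕ) : MulAut (Fin r → A) :=
  MulEquiv.arrowCongr Fin.revPerm (MulEquiv.refl A)

lemma rev_rev (A : Type) [Group A] (r : ℕ) : rev A r * rev A r = 1 := by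
  ext f i
  simp [rev]

/-- the action of `Z/2Z` on `A^r`: the nontrivial element reverses the coordinates -/
def revHom (A : Type) [Group A] (r : ℕ) : Multiplicative (ZMod 2) →* MulAut (Fin r → A) :=
  MonoidHom.mk' (fun e => if e = 1 then 1 else rev A r) (by
    intro a b
    have h : ∀ x : Multiplicative (ZMod 2), x = 1 ∨ x = Multiplicative.ofAdd 1 := by decide
    have h1 : (Multiplicative.ofAdd (1 : ZMod 2)) ≠ 1 := by decide
    have h2 : Multiplicative.ofAdd (1 : ZMod 2) * Multiplicative.ofAdd (1 : ZMod 2) = 1 := by decide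
    rcases h a with rfl | rfl <;> rcases h b with rfl | rfl <;> simp [h1, h2, rev_rev])

/-- `W [] = Z/2Z`, `W (r :: l) = (W l)^r ⋊ Z/2Z`; so `W [r_s, …, r_1] = W(r_1, …, r_s)` -/
def W : List ℕ → GrpCat.{0}
  | [] => GrpCat.of (Multiplicative (ZMod 2))
  | r :: l => GrpCat.of ((Fin r → W l) ⋊[revHom (W l) r] Multiplicative (ZMod 2))

lemma cardW_nil : Nat.card (W []) = 2 := by
  show Nat.card (Multiplicative (ZMod 2)) = 2
  simp

lemma cardW_cons (r : ℕ) (l : List ℕ) : Nat.card (W (r :: l)) = Nat.card (W l) ^ r * 2 := by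
  show Nat.card ((Fin r → W l) ⋊[revHom (W l) r] Multiplicative (ZMod 2)) = _
  rw [SemidirectProduct.card]
  simp [Nat.card_fun]

lemma two_pow_le (l : List ℕ) (h : ∀ r ∈ l, 2 ≤ r) : 2 ^ l.length ≤ l.prod := by
  induction l with
  | nil => simp
  | cons a l ih =>
    rw [List.length_cons, List.prod_cons, pow_succ, mul_comm]
    exact Nat.mul_le_mul (h a (by simp)) (ih fun r hr => h r (by simp [hr]))

lemma cardW (l : List ℕ) (h : ∀ r ∈ l, 2 ≤ r) (hp : 2 * l.prod ≤ 10) :
    0 < Nat.card (W l) ∧ Nat.card (W l) ≤ 128 := by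
  match l, h, hp with
  | [], _, _ => rw [cardW_nil]; omega
  | [a], h, hp =>
    rw [cardW_cons, cardW_nil]
    have : a ≤ 5 := by simp at hp; omega
    interval_cases a <;> omega
  | [a, b], h, hp =>
    rw [cardW_cons, cardW_cons, cardW_nil]
    have ha := h a (by simp)
    have hb := h b (by simp)
    simp at hp
    have ha' : a = 2 := by nlinarith
    have hb' : b = 2 := by nlinarith
    subst ha' hb'
    omega
  | a :: b :: c :: l, h, hp =>
    exfalso
    have := two_pow_le _ h
    simp only [List.length_cons, pow_succ] at this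
    have : 0 < 2 ^ l.length := by positivity
    omega

lemma fin_closure {G : Type} [Group G] (l : List G) (h2 : ∀ t ∈ l, t * t = 1)
    (hc : ∀ t l', t :: l' <:+ l → ∀ s ∈ l', t * s * t⁻¹ ∈ l') :
    Finite (Subgroup.closure {x | x ∈ l}) := by
  induction l with
  | nil =>
    have : {x | x ∈ ([] : List G)} = ∅ := by simp
    rw [this, Subgroup.closure_empty]
    infer_instance
  | cons t l ih =>
    have hf := ih (fun s hs => h2 s (by simp [hs]))
      (fun s l' hs => hc s l' (hs.trans (List.suffix_cons t l)))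
    set A := Subgroup.closure {x | x ∈ l} with hA
    have ht : t * t = 1 := h2 t (by simp)
    have hi : t⁻¹ = t := inv_eq_of_mul_eq_one_right ht
    have hn : ∀ a ∈ A, t * a * t ∈ A := by
      intro a ha
      induction ha using Subgroup.closure_induction with
      | mem s hs =>
        have := hc t l (List.suffix_refl _) s hs
        rw [hi] at this
        exact Subgroup.subset_closure this
      | one => rw [mul_one, ht]; exact A.one_mem
      | mul a b _ _ ha hb =>
        have e : t * (a * b) * t = (t * a * t) * (t * b * t) := by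
          calc t * (a * b) * t = t * a * (t * t) * b * t := by rw [ht]; group
            _ = _ := by group
        rw [e]; exact A.mul_mem ha hb
      | inv a _ ha =>
        have e : t * a⁻¹ * t = (t * a * t)⁻¹ := by
          rw [mul_inv_rev, mul_inv_rev, hi, mul_assoc]
        rw [e]; exact A.inv_mem ha
    have key : ∀ x ∈ Subgroup.closure {x | x ∈ t :: l}, x ∈ A ∨ x * t ∈ A := by
      intro x hx
      induction hx using Subgroup.closure_induction with
      | mem s hs =>
        rcases List.mem_cons.1 hs with rfl | hs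
        · right; rw [ht]; exact A.one_mem
        · left; exact Subgroup.subset_closure hs
      | one => left; exact A.one_mem
      | mul a b _ _ ha hb =>
        rcases ha with ha | ha <;> rcases hb with hb | hb
        · left; exact A.mul_mem ha hb
        · right; rw [mul_assoc]; exact A.mul_mem ha hb
        · right
          have e : a * b * t = (a * t) * (t * b * t) := by
            calc a * b * t = a * (t * t) * b * t := by rw [ht]; group
              _ = _ := by group
          rw [e]; exact A.mul_mem ha (hn b hb)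
        · left
          have e : a * b = (a * t) * (t * (b * t) * t) := by
            calc a * b = a * (t * t) * b * (t * t) := by rw [ht]; group
              _ = _ := by group
          rw [e]; exact A.mul_mem ha (hn _ hb)
      | inv a _ ha =>
        rcases ha with ha | ha
        · left; exact A.inv_mem ha
        · right
          have e : a⁻¹ * t = t * (a * t)⁻¹ * t := by
            rw [mul_inv_rev, hi, ← mul_assoc, ht, one_mul]
          rw [e]; exact hn _ (A.inv_mem ha)
    have hfs : (A : Set G).Finite := hf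
    have : (Subgroup.closure {x | x ∈ t :: l} : Set G).Finite := by
      apply (hfs.union (hfs.image (· * t))).subset
      intro x hx
      rcases key x hx with h | h
      · exact Or.inl h
      · exact Or.inr ⟨x * t, h, by simp [mul_assoc, ht]⟩
    exact this

def fl (a : ℕ × ℕ) (i : ℕ) : ℕ := if a.1 ≤ i ∧ i ≤ a.2 then a.1 + a.2 - i else i

def flp (a : ℕ × ℕ) : Equiv.Perm ℕ := Function.Involutive.toPerm (fl a) (by
  intro i
  unfold fl
  split_ifs <;> omega)

lemma flp_apply (a : ℕ × ℕ) (i : ℕ) : flp a i = fl a i := rfl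

def toS (n : ℕ) : J n →* Equiv.Perm ℕ := PresentedGroup.toGroup (f := fun a : Gen n => flp a.1) (by
  rintro w (⟨a, rfl⟩ | ⟨a, b, h, rfl⟩ | ⟨a, b, c, h1, h2, h3, h4, rfl⟩)
  · simp only [map_mul, FreeGroup.lift_apply_of]
    ext i
    simp only [Equiv.Perm.mul_apply, flp_apply, fl, Equiv.Perm.one_apply]
    split_ifs <;> omega
  · simp only [map_mul, map_inv, FreeGroup.lift_apply_of]
    rw [mul_inv_eq_one]
    ext i
    have := a.2
    have := b.2
    simp only [Equiv.Perm.mul_apply, flp_apply, fl]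
    split_ifs <;> omega
  · simp only [map_mul, map_inv, FreeGroup.lift_apply_of]
    rw [mul_inv_eq_one]
    ext i
    have := a.2
    have := b.2
    have := c.2
    simp only [Equiv.Perm.mul_apply, flp_apply, fl]
    split_ifs <;> omega)

def s (p q : ℕ) (h : 1 ≤ p ∧ p < q ∧ q ≤ 10) : J 10 :=
  PresentedGroup.of (⟨(p, q), h⟩ : Gen 10)

lemma rel_one (w : FreeGroup (Gen 10)) (h : w ∈ rels 10) : PresentedGroup.mk (rels 10) w = 1 :=
  PresentedGroup.one_of_mem h

lemma s_sq (p q : ℕ) (h) : s p q h * s p q h = 1 :=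
  rel_one _ (Or.inl ⟨⟨(p, q), h⟩, rfl⟩)

lemma s_dis (p q m r : ℕ) (h h') (hd : q < m ∨ r < p) :
    s p q h * s m r h' * (s p q h)⁻¹ = s m r h' := by
  have := rel_one _ (Or.inr (Or.inl ⟨⟨(p, q), h⟩, ⟨(m, r), h'⟩, hd, rfl⟩))
  simp only [map_mul, map_inv] at this
  rw [mul_inv_eq_one] at this
  rw [mul_inv_eq_iff_eq_mul]
  exact this

lemma s_nest (p q m r u v : ℕ) (h h' h'') (hd : p ≤ m ∧ r ≤ q ∧ u + r = p + q ∧ v + m = p + q) :
    s p q h * s m r h' * (s p q h)⁻¹ = s u v h'' := by
  have := rel_one _ (Or.inr (Or.inr ⟨⟨(p, q), h⟩, ⟨(m, r), h'⟩, ⟨(u, v), h''⟩,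
    hd.1, hd.2.1, hd.2.2.1, hd.2.2.2, rfl⟩))
  simp only [map_mul, map_inv] at this
  rw [mul_inv_eq_one] at this
  rw [mul_inv_eq_iff_eq_mul]
  exact this

def L : List (J 10) := [s 9 10 (by decide), s 1 8 (by decide), s 5 8 (by decide), s 7 8 (by decide), s 5 6 (by decide), s 1 4 (by decide), s 3 4 (by decide), s 1 2 (by decide)]

def H : Subgroup (J 10) := Subgroup.closure {x | x ∈ L}

lemma finH : Finite H := by
  apply fin_closure
  · intro t ht
    simp only [L, List.mem_cons, List.not_mem_nil, or_false] at ht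
    rcases ht with rfl | rfl | rfl | rfl | rfl | rfl | rfl | rfl <;> exact s_sq _ _ _
  · intro t l' h x hx
    simp only [L, List.suffix_cons_iff, List.cons.injEq, List.suffix_nil, reduceCtorEq,
      or_false] at h
    rcases h with ⟨rfl, rfl⟩ | ⟨rfl, rfl⟩ | ⟨rfl, rfl⟩ | ⟨rfl, rfl⟩ | ⟨rfl, rfl⟩ | ⟨rfl, rfl⟩ |
      ⟨rfl, rfl⟩ | ⟨rfl, rfl⟩ <;>
    simp only [List.mem_cons, List.not_mem_nil, or_false] at hx <;>
    (try rcases hx with rfl | rfl | rfl | rfl | rfl | rfl | rfl) <;>
    first
    | (rw [s_dis _ _ _ _ _ _ (by decide)]; simp)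
    | (rw [s_nest _ _ _ _ 1 2 _ _ (by decide) (by decide)]; simp)
    | (rw [s_nest _ _ _ _ 3 4 _ _ (by decide) (by decide)]; simp)
    | (rw [s_nest _ _ _ _ 5 6 _ _ (by decide) (by decide)]; simp)
    | (rw [s_nest _ _ _ _ 7 8 _ _ (by decide) (by decide)]; simp)
    | (rw [s_nest _ _ _ _ 1 4 _ _ (by decide) (by decide)]; simp)
    | (rw [s_nest _ _ _ _ 5 8 _ _ (by decide) (by decide)]; simp)

def P : List (ℕ × ℕ) := [(9, 10), (1, 8), (5, 8), (7, 8), (5, 6), (1, 4), (3, 4), (1, 2)]

def code (l : List (ℕ × ℕ)) : List ℕ := (List.range 11).map fun i => l.foldr fl i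

lemma nd : (P.sublists.map code).Nodup := by decide +kernel

lemma ex_elt (l : List (ℕ × ℕ)) (h : ∀ a ∈ l, a ∈ P) :
    ∃ g : H, ∀ i, toS 10 g.1 i = l.foldr fl i := by
  induction l with
  | nil => exact ⟨1, fun i => by simp⟩
  | cons a l ih =>
    obtain ⟨g, hg⟩ := ih fun b hb => h b (by simp [hb])
    have ha := h a (by simp)
    have : ∃ t : H, toS 10 t.1 = flp a := by
      simp only [P, List.mem_cons, List.not_mem_nil, or_false] at ha
      rcases ha with rfl | rfl | rfl | rfl | rfl | rfl | rfl | rfl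
      · exact ⟨⟨s 9 10 (by decide), Subgroup.subset_closure (by simp [L])⟩, PresentedGroup.toGroup.of _⟩
      · exact ⟨⟨s 1 8 (by decide), Subgroup.subset_closure (by simp [L])⟩, PresentedGroup.toGroup.of _⟩
      · exact ⟨⟨s 5 8 (by decide), Subgroup.subset_closure (by simp [L])⟩, PresentedGroup.toGroup.of _⟩
      · exact ⟨⟨s 7 8 (by decide), Subgroup.subset_closure (by simp [L])⟩, PresentedGroup.toGroup.of _⟩
      · exact ⟨⟨s 5 6 (by decide), Subgroup.subset_closure (by simp [L])⟩, PresentedGroup.toGroup.of _⟩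
      · exact ⟨⟨s 1 4 (by decide), Subgroup.subset_closure (by simp [L])⟩, PresentedGroup.toGroup.of _⟩
      · exact ⟨⟨s 3 4 (by decide), Subgroup.subset_closure (by simp [L])⟩, PresentedGroup.toGroup.of _⟩
      · exact ⟨⟨s 1 2 (by decide), Subgroup.subset_closure (by simp [L])⟩, PresentedGroup.toGroup.of _⟩
    obtain ⟨t, ht⟩ := this
    refine ⟨t * g, fun i => ?_⟩
    rw [Subgroup.coe_mul, map_mul, Equiv.Perm.mul_apply, hg, ht]
    rfl

lemma cardH : 256 ≤ Nat.card H := by
  haveI := finH
  haveI := Fintype.ofFinite H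
  let f : H → List ℕ := fun g => (List.range 11).map fun i => toS 10 g.1 i
  have hsub : (P.sublists.map code).toFinset ⊆ Finset.univ.image f := by
    intro c hc
    rw [List.mem_toFinset, List.mem_map] at hc
    obtain ⟨l, hl, rfl⟩ := hc
    obtain ⟨g, hg⟩ := ex_elt l fun a ha => (List.mem_sublists.1 hl).subset ha
    exact Finset.mem_image.2 ⟨g, Finset.mem_univ _, by simp [f, code, hg]⟩
  have h1 := Finset.card_le_card hsub
  rw [List.toFinset_card_of_nodup nd] at h1
  have h2 := Finset.card_image_le (s := (Finset.univ : Finset H)) (f := f)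
  rw [Nat.card_eq_fintype_card, ← Finset.card_univ]
  have h3 : (P.sublists.map code).length = 256 := by simp [P]
  omega

/-- A finite group that embeds into `J_10` but into no `W(r_1,…,r_s)` with all `r_k ≥ 2` and
`r_1 ⋯ r_s ≤ 10/2`. -/
theorem result : ∃ (G : Type) (_ : Group G), Finite G ∧
    (∃ f : G →* J 10, Function.Injective f) ∧
    ∀ l : List ℕ, (∀ r ∈ l, 2 ≤ r) → 2 * l.prod ≤ 10 →
      ¬ ∃ f : G →* W l, Function.Injective f := by
  refine ⟨H, inferInstance, finH, ⟨H.subtype, H.subtype_injective⟩, ?_⟩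
  rintro l h hp ⟨f, hf⟩
  obtain ⟨h0, h1⟩ := cardW l h hp
  haveI : Finite (W l) := Nat.finite_of_card_ne_zero h0.ne'
  have := Nat.card_le_card_of_injective f hf
  have := cardH
  omega

end Pool.Agent.Results.MP_2b0b8a_al.Disproof
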